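import Pool.Agent.Helper75x.NR.StmD

/-!
# Tasks D0 and D2
-/

set_option autoImplicit false

namespace Pool.Agent.Helper75x.NRD

open Pool.Agent.TH91.NB Pool.Agent.TH91.RF Pool.Agent.Helper75x.NR Finset

theorem taskD0 : TaskD0 := by
  intro A _ _ K d z h q hq
  have h1 := vdm_mem d K.toAddSubgroup z (fun s => by
    have e : ∑ n ∈ range (d + 1), ((s ^ n : ℕ) : ℤ) • z n =
        ∑ q ∈ range (d + 1), ((s : ℝ) ^ q) • z q := by
      refine sum_congr rfl fun n _ => ?_
      rw [← Int.cast_smul_eq_zsmul ℝ]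
      push_cast
      rfl
    rw [e]
    exact h s) q (by omega)
  have h2 : (vdm d : ℝ) ≠ 0 := by exact_mod_cast vdm_ne_zero d
  have h3 := K.smul_mem (vdm d : ℝ)⁻¹ h1
  rw [← Int.cast_smul_eq_zsmul ℝ, smul_smul, inv_mul_cancel₀ h2, one_smul] at h3
  exact h3

theorem taskD2 : TaskD2 := by
  intro N I K x y hx hy h
  have e : ∀ (W : I → Mt N) (r : ℝ), adr (-(r • x)) W = r • adr (-x) W := by
    intro W r
    unfold adr
    rw [mul_neg, neg_mul, mul_neg, neg_mul, mul_smul_comm, smul_mul_assoc, smul_sub, smul_neg,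
      smul_neg]
  have e2 : ∀ (r : ℝ) (k : ℕ), (adr (-(r • x)))^[k] y = r ^ k • (adr (-x))^[k] y := by
    intro r k
    induction k with
    | zero => simp
    | succ k ih =>
      rw [Function.iterate_succ_apply', ih, e, Function.iterate_succ_apply', pow_succ']
      unfold adr
      rw [smul_mul_assoc, mul_smul_comm, ← smul_sub, smul_smul]
  set z : ℕ → I → Mt N := fun k => if k = 0 then 0 else
    ((k.factorial : ℝ))⁻¹ • (adr (-x))^[k] y with hz
  have hN : (adr (-x))^[N + 1] y = 0 := by
    refine (filtI I N).eq_zero_of_le (k := 1 + (N + 1)) (by omega) ?_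
    exact (filtI I N).adr_iter_mem (Submodule.neg_mem _ hx) hy _
  have h1 : ∀ n : ℕ, ∑ q ∈ range (N + 1 + 1), ((n : ℝ) ^ q) • z q ∈ K := by
    intro n
    have h2 := h n
    have hnx : (n : ℝ) • x ∈ (filtI I N).F 1 := smulI_mem hx _
    rw [mul_assoc, (filtI I N).mul_exp (Submodule.neg_mem _ hnx) hy, ← mul_assoc,
      IsNilpotent.exp_mul_exp_neg_self ((filtI I N).nilp hnx), one_mul, sum_range_succ'] at h2
    simp only [Nat.factorial_zero, Nat.cast_one, inv_one, one_smul, Function.iterate_zero, id_eq,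
      add_sub_cancel_right] at h2
    have e3 : ∑ q ∈ range (N + 1 + 1), ((n : ℝ) ^ q) • z q =
        ∑ k ∈ range N, (((k + 1).factorial : ℚ))⁻¹ • (adr (-((n : ℝ) • x)))^[k + 1] y := by
      rw [sum_range_succ, sum_range_succ']
      have e4 : z 0 = 0 := by simp [hz]
      have e5 : z (N + 1) = 0 := by simp only [hz, hN, smul_zero, ite_self]
      rw [e4, e5, smul_zero, smul_zero, add_zero, add_zero]
      refine sum_congr rfl fun k _ => ?_
      rw [e2]
      simp only [hz]
      rw [if_neg (by omega), ← Rat.cast_smul_eq_qsmul ℝ, smul_comm]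
      push_cast
      rfl
    rw [e3]
    exact h2
  have h3 := taskD0 _ K (N + 1) z h1 1 (by omega)
  have e6 : z 1 = br x y := by
    simp only [hz, one_ne_zero, if_false, Nat.factorial_one, Nat.cast_one, inv_one, one_smul,
      Function.iterate_one]
    unfold adr br
    noncomm_ring
  rwa [e6] at h3

end Pool.Agent.Helper75x.NRD
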