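import Pool.Agent.Helper75x.NRD.D0

/-!
# The Magnus-type lemma over a general filtered ring
-/

set_option autoImplicit false

namespace Pool.Agent.Helper75x.NRD

open Pool.Agent.TH91.NB Pool.Agent.TH91.RF Pool.Agent.Helper75x.NR Finset Polynomial

set_option maxHeartbeats 400000

section filt

variable {A : Type*} [Ring A] [Algebra ℚ A] {N : ℕ} (Φ : Filt A N)

/-- coefficientwise filtration -/
noncomputable def polyC : Filt A[X] N where
  F k :=
    { carrier := {f | ∀ n, f.coeff n ∈ Φ.F k}
      add_mem' := by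
        intro a b ha hb n
        rw [coeff_add]
        exact Submodule.add_mem _ (ha n) (hb n)
      zero_mem' := by
        intro n
        simp
      smul_mem' := by
        intro c x hx n
        rw [coeff_smul]
        exact Submodule.smul_mem _ _ (hx n) }
  anti := by
    intro i j hij x hx n
    exact Φ.anti hij (hx n)
  mul := by
    intro i j x y hx hy n
    rw [coeff_mul]
    exact Submodule.sum_mem _ fun ab _ => Φ.mul (hx ab.1) (hy ab.2)
  bot := by
    intro x hx
    ext n
    rw [coeff_zero]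
    exact Φ.bot _ (hx n)

theorem mem_polyC {k : ℕ} {f : A[X]} : f ∈ (polyC Φ).F k ↔ ∀ n, f.coeff n ∈ Φ.F k := Iff.rfl

theorem coeff_deriv (f : A[X]) (n : ℕ) :
    (derivative f).coeff n = ((n + 1 : ℕ) : ℚ) • f.coeff (n + 1) := by
  rw [coeff_derivative, Nat.cast_smul_eq_nsmul, nsmul_eq_mul, ← Nat.cast_succ, Nat.cast_comm]

theorem derivative_memC {k : ℕ} {f : A[X]} (hf : f ∈ (polyC Φ).F k) :
    derivative f ∈ (polyC Φ).F k := by
  rw [mem_polyC] at hf ⊢
  intro n
  rw [coeff_deriv]
  exact Submodule.smul_mem _ _ (hf (n + 1))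

theorem derivative_exp_central {E : A[X]} (hE : ∀ f, Commute E f)
    (hE' : ∀ f, Commute (derivative E) f) {w : A} (hw : E * C w ∈ (polyC Φ).F 1) :
    derivative (IsNilpotent.exp (E * C w)) =
      IsNilpotent.exp (E * C w) * (derivative E * C w) := by
  have hd : derivative (E * C w) = derivative E * C w := by
    rw [derivative_mul, derivative_C, mul_zero, add_zero]
  have h := (polyC Φ).deriv_exp (derivative : A[X] →ₗ[A] A[X]).toAddMonoidHom
    (fun f g => by simp [derivative_mul])
    (fun q f => by simp) hw (by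
      simpa using derivative_memC Φ hw)
  simp only [LinearMap.toAddMonoidHom_coe] at h
  rw [h, hd]
  congr 1
  rw [sum_eq_single_of_mem 0 (by simp)]
  · simp
  · intro k _ hk
    obtain ⟨k, rfl⟩ := Nat.exists_eq_succ_of_ne_zero hk
    rw [Function.iterate_succ_apply]
    have h1 : Commute (derivative E * C w) (E * C w) := by
      have h2 : Commute (C w : A[X]) (E * C w) := ((hE (C w)).symm).mul_right (Commute.refl _)
      exact (hE' _).mul_left h2
    have : adr (E * C w) (derivative E * C w) = 0 := by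
      unfold adr
      rw [h1.eq, sub_self]
    rw [this]
    have h0 : ∀ k, (adr (E * C w))^[k] 0 = 0 := by
      intro k
      induction k with
      | zero => rfl
      | succ k ih => rw [Function.iterate_succ_apply', ih]; simp [adr]
    rw [h0, smul_zero]

theorem commute_of_coeff {E : A[X]} (h : ∀ n a, Commute (E.coeff n) a)
    (f : A[X]) : Commute E f := by
  induction f using Polynomial.induction_on' with
  | add p q hp hq => exact hp.add_right hq
  | monomial n a =>
    rw [E.as_sum_support]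
    refine Commute.sum_left _ _ _ fun i _ => ?_
    unfold Commute SemiconjBy
    rw [monomial_mul_monomial, monomial_mul_monomial, (h i a).eq, add_comm]

theorem commute_derivative {E : A[X]} (h : ∀ n a, Commute (E.coeff n) a)
    (f : A[X]) : Commute (derivative E) f := by
  refine commute_of_coeff (fun n a => ?_) f
  rw [coeff_deriv]
  exact (h (n + 1) a).smul_left _

theorem EC_mem {E : A[X]} (hEΦ : ∀ n, ∀ w ∈ Φ.F 1, E.coeff n * w ∈ Φ.F 1) {w : A}
    (hw : w ∈ Φ.F 1) : E * C w ∈ (polyC Φ).F 1 := by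
  rw [mem_polyC]
  intro n
  rw [coeff_mul_C]
  exact hEΦ n w hw

end filt

section ev

variable {A : Type*} [Ring A] [Algebra ℝ A]

/-- evaluation -/
noncomputable def ev (A : Type*) [Ring A] [Algebra ℝ A] (τ : ℝ) : A[X] →+* A :=
  eval₂RingHom' (RingHom.id _) (algebraMap ℝ A τ)
    (fun a => Algebra.commute_algebraMap_right τ _)

theorem ev_sum (τ : ℝ) (f : A[X]) {n : ℕ} (hn : f.natDegree < n) :
    ev A τ f = ∑ q ∈ range n, τ ^ q • f.coeff q := by
  unfold ev
  rw [eval₂RingHom'_apply, eval₂_eq_sum_range' _ hn]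
  refine sum_congr rfl fun q _ => ?_
  rw [← map_pow, RingHom.id_apply, Algebra.smul_def]
  exact (Algebra.commutes (τ ^ q) _).symm

theorem ev_C (τ : ℝ) (w : A) : ev A τ (C w) = w := by
  rw [ev_sum τ (C w) (n := 1) (by rw [natDegree_C]; exact Nat.one_pos), sum_range_one, pow_zero,
    one_smul, coeff_C_zero]

theorem ev_monomial_one (τ : ℝ) (w : A) : ev A τ (monomial 1 w) = τ • w := by
  rw [ev_sum τ (monomial 1 w) (n := 2) (by
    have := natDegree_monomial_le w (m := 1)
    omega), sum_range_succ, sum_range_one]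
  simp [coeff_monomial]

theorem ev_zero (f : A[X]) : ev A 0 f = f.coeff 0 := by
  rw [ev_sum 0 f (Nat.lt_succ_self _), sum_range_succ', pow_zero, one_smul]
  simp

theorem ev_mem_of_coeff (K : Submodule ℝ A) (f : A[X])
    (h : ∀ n : ℕ, f.coeff n ∈ K) (τ : ℝ) : ev A τ f ∈ K := by
  rw [ev_sum τ f (Nat.lt_succ_self _)]
  exact K.sum_mem fun q _ => K.smul_mem _ (h q)

end ev

theorem coeff_mem_of_ev {A : Type} [Ring A] [Algebra ℝ A] (K : Submodule ℝ A) (f : A[X])
    (h : ∀ n : ℕ, ev A n f ∈ K) (q : ℕ) : f.coeff q ∈ K := by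
  refine taskD0 _ K (max f.natDegree q) f.coeff (fun n => ?_) q (le_max_right _ _)
  rw [← ev_sum (n : ℝ) f (Nat.lt_succ_of_le (le_max_left _ _))]
  exact h n

section main

variable {A : Type} [Ring A] [Algebra ℚ A] [Algebra ℝ A] {N : ℕ} (Φ : Filt A N)

theorem ev_exp (τ : ℝ) {f : A[X]} (hf : f ∈ (polyC Φ).F 1) :
    ev A τ (IsNilpotent.exp f) = IsNilpotent.exp (ev A τ f) :=
  IsNilpotent.map_exp ((polyC Φ).nilp hf) (ev A τ)

theorem qsmul_mem (K : Submodule ℝ A) {x : A} (hx : x ∈ K) (q : ℚ) : q • x ∈ K := by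
  rw [← Rat.cast_smul_eq_qsmul ℝ]
  exact K.smul_mem _ hx

variable {E : A[X]} (hE : ∀ n a, Commute (E.coeff n) a)
  (hEΦ : ∀ n, ∀ w ∈ Φ.F 1, E.coeff n * w ∈ Φ.F 1)

include hEΦ in
theorem ev_expE (τ : ℝ) {w : A} (hw : w ∈ Φ.F 1) :
    ev A τ (IsNilpotent.exp (E * C w)) = IsNilpotent.exp (ev A τ E * w) := by
  rw [ev_exp Φ τ (EC_mem Φ hEΦ hw), map_mul, ev_C]

include hEΦ in
theorem ev_expE_neg (τ : ℝ) {w : A} (hw : w ∈ Φ.F 1) :
    ev A τ (IsNilpotent.exp (-(E * C w))) = IsNilpotent.exp (-(ev A τ E * w)) := by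
  rw [ev_exp Φ τ (Submodule.neg_mem _ (EC_mem Φ hEΦ hw)), map_neg, map_mul, ev_C]

include hE hEΦ

theorem genD1 (hE0 : E.coeff 0 = 0) (K : Submodule ℝ A) {M v : A} (hM : M ∈ Φ.F 1)
    (hK : ∀ n : ℕ, IsNilpotent.exp (ev A n E * M) * v * IsNilpotent.exp (-(ev A n E * M)) ∈ K) :
    ev A 0 (derivative E) * (M * v - v * M) ∈ K := by
  have hEc := fun f => commute_of_coeff hE f
  have hEc' := fun f => commute_derivative hE f
  have hEM := EC_mem Φ hEΦ hM
  have hEM' := EC_mem Φ hEΦ (Submodule.neg_mem _ hM)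
  have hneg : E * C (-M) = -(E * C M) := by
    rw [C_neg, mul_neg]
  set P : A[X] := IsNilpotent.exp (E * C M) * C v * IsNilpotent.exp (-(E * C M)) with hP
  have hPev : ∀ n : ℕ, ev A n P ∈ K := by
    intro n
    rw [hP, map_mul, map_mul, ev_C, ev_expE Φ hEΦ _ hM, ev_expE_neg Φ hEΦ _ hM]
    exact hK n
  have h1 := coeff_mem_of_ev K P hPev 1
  have h2 : P.coeff 1 = ev A 0 (derivative P) := by
    rw [ev_zero, coeff_deriv]
    simp
  have h3 : derivative P = IsNilpotent.exp (E * C M) * (derivative E * C M) *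
      C v * IsNilpotent.exp (-(E * C M)) +
      IsNilpotent.exp (E * C M) * C v *
      (IsNilpotent.exp (-(E * C M)) * (derivative E * C (-M))) := by
    rw [hP, derivative_mul, derivative_mul, derivative_C, mul_zero, add_zero, ← hneg,
      derivative_exp_central _ hEc hEc' hEM, derivative_exp_central _ hEc hEc' hEM']
  have h4 : ev A 0 E = 0 := by rw [ev_zero, hE0]
  have h5 : Commute (ev A 0 (derivative E)) v := by
    rw [ev_zero, coeff_deriv]
    exact (hE 1 v).smul_left _
  rw [h2, h3] at h1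
  simp only [map_add, map_mul, ev_C] at h1
  rw [ev_expE Φ hEΦ _ hM, ev_expE_neg Φ hEΦ _ hM, h4, zero_mul, neg_zero,
    IsNilpotent.exp_zero, one_mul, one_mul, one_mul, mul_one] at h1
  have e : ev A 0 (derivative E) * (M * v - v * M) =
      ev A 0 (derivative E) * M * v + v * (ev A 0 (derivative E) * -M) := by
    rw [← mul_assoc v, ← h5.eq]
    noncomm_ring
  rw [e]
  exact h1

/-- the auxiliary polynomial -/
noncomputable def Yp (E : A[X]) (M β : A) : A[X] :=
  IsNilpotent.exp (E * C M) * (derivative E * C β) * IsNilpotent.exp (-(E * C M))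

/-- the auxiliary polynomial -/
noncomputable def Gp (E : A[X]) (M β : A) : A[X] :=
  IsNilpotent.exp (E * C (M + β)) * IsNilpotent.exp (-(E * C M))

theorem Gp_deriv {M β : A} (hM : M ∈ Φ.F 1) (hβ : β ∈ Φ.F 1) :
    derivative (Gp E M β) = Gp E M β * Yp E M β := by
  have hEc := fun f => commute_of_coeff hE f
  have hEc' := fun f => commute_derivative hE f
  have hEM := EC_mem Φ hEΦ hM
  have hEM' := EC_mem Φ hEΦ (Submodule.neg_mem _ hM)
  have hEW := EC_mem Φ hEΦ (Submodule.add_mem _ hM hβ)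
  have hneg : E * C (-M) = -(E * C M) := by
    rw [C_neg, mul_neg]
  have h1 : derivative (Gp E M β) = IsNilpotent.exp (E * C (M + β)) * (derivative E * C (M + β)) *
      IsNilpotent.exp (-(E * C M)) + IsNilpotent.exp (E * C (M + β)) *
      (IsNilpotent.exp (-(E * C M)) * (derivative E * C (-M))) := by
    unfold Gp
    rw [derivative_mul, ← hneg, derivative_exp_central _ hEc hEc' hEW,
      derivative_exp_central _ hEc hEc' hEM']
  have hc : Commute (IsNilpotent.exp (-(E * C M)) : A[X]) (derivative E * C (-M)) := by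
    have h2 : Commute (-(E * C M)) (derivative E * C (-M)) := by
      have h3 : Commute (C M : A[X]) (C (-M)) := by
        rw [C_neg]
        exact (Commute.refl _).neg_right
      have h4 : Commute (E * C M) (derivative E * C (-M)) := by
        refine (hEc _).mul_left ?_
        exact ((hEc' (C M)).symm).mul_right h3
      exact h4.neg_left
    rw [(polyC Φ).exp_eq (Submodule.neg_mem _ hEM)]
    exact Commute.sum_left _ _ _ fun i _ => (h2.pow_left i).smul_left _
  rw [h1, hc.eq, ← mul_assoc (IsNilpotent.exp (E * C (M + β))) (derivative E * C (-M)), ← add_mul,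
    ← mul_add, ← mul_add, ← C_add]
  have e1 : M + β + -M = β := by abel
  unfold Gp Yp
  rw [e1]
  have e2 : IsNilpotent.exp (E * C (M + β)) * IsNilpotent.exp (-(E * C M)) *
      (IsNilpotent.exp (E * C M) * (derivative E * C β) * IsNilpotent.exp (-(E * C M))) =
      IsNilpotent.exp (E * C (M + β)) * (IsNilpotent.exp (-(E * C M)) *
      IsNilpotent.exp (E * C M)) * (derivative E * C β) * IsNilpotent.exp (-(E * C M)) := by
    simp only [mul_assoc]
  rw [e2, IsNilpotent.exp_neg_mul_exp_self ((polyC Φ).nilp hEM), mul_one]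

theorem genD (hE0 : E.coeff 0 = 0) (K K1 : Submodule ℝ A) (hK1 : K1 ≤ K)
    (hbr : ∀ x ∈ K, ∀ y ∈ K, x * y - y * x ∈ K1) {M β : A} (hM : M ∈ Φ.F 1) (hβ : β ∈ Φ.F 1)
    (hY : ∀ n : ℕ, ev A n (Yp E M β) ∈ K)
    (hY0 : ∀ n : ℕ, ev A n (Yp E M β) - ev A 0 (Yp E M β) ∈ K1) :
    ∃ z ∈ K, z - ev A 0 (Yp E M β) ∈ K1 ∧ ev A 1 (Gp E M β) = IsNilpotent.exp z := by
  have hEM := EC_mem Φ hEΦ hM
  have hEW := EC_mem Φ hEΦ (Submodule.add_mem _ hM hβ)
  have hGd := Gp_deriv Φ hE hEΦ hM hβ
  set Y := Yp E M β with hYd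
  set G := Gp E M β with hGdef
  have hYK : ∀ q, Y.coeff q ∈ K := coeff_mem_of_ev K Y hY
  have hY00 : Y.coeff 0 = ev A 0 Y := (ev_zero Y).symm
  have hYK1 : ∀ q, 1 ≤ q → Y.coeff q ∈ K1 := by
    intro q hq
    have h1 := coeff_mem_of_ev K1 (Y - C (Y.coeff 0)) (fun n => by
      rw [map_sub, ev_C, hY00]
      exact hY0 n) q
    rwa [coeff_sub, coeff_C_of_ne_zero (by omega), sub_zero] at h1
  -- the logarithm
  obtain ⟨z, hz, hzG⟩ := (polyC Φ).exp_surj (w := G)
    ((polyC Φ).one_add_mul_mem ((polyC Φ).exp_sub_one_mem hEW)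
      ((polyC Φ).exp_sub_one_mem (Submodule.neg_mem _ hEM)))
  have hzc := (mem_polyC Φ).1 hz
  have hz0 : z.coeff 0 = 0 := by
    refine Φ.exp_inj (hzc 0) (Submodule.zero_mem _) ?_
    rw [← ev_zero, ← ev_exp Φ 0 hz, hzG, IsNilpotent.exp_zero, hGdef]
    unfold Gp
    rw [map_mul, ev_expE Φ hEΦ _ (Submodule.add_mem _ hM hβ), ev_expE_neg Φ hEΦ _ hM, ev_zero, hE0,
      zero_mul, zero_mul, neg_zero, IsNilpotent.exp_zero, one_mul]
  -- the differential equation
  have hstar : ∑ k ∈ range (N + 1), ((k + 1).factorial : ℚ)⁻¹ • (adr z)^[k] (derivative z) = Y := by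
    have h1 := (polyC Φ).deriv_exp (derivative : A[X] →ₗ[A] A[X]).toAddMonoidHom
      (fun f g => by simp [derivative_mul])
      (fun q f => by simp) hz (by simpa using derivative_memC Φ hz)
    simp only [LinearMap.toAddMonoidHom_coe] at h1
    rw [hzG, hGd, ← hzG] at h1
    exact ((IsNilpotent.isUnit_exp ((polyC Φ).nilp hz)).mul_left_cancel h1).symm
  have hrec : ∀ n, ((n + 1 : ℕ) : ℚ) • z.coeff (n + 1) +
      ∑ k ∈ range N, ((k + 2).factorial : ℚ)⁻¹ • ((adr z)^[k + 1] (derivative z)).coeff n =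
      Y.coeff n := by
    intro n
    have h1 := congrArg (fun f : A[X] => f.coeff n) hstar
    simp only [finsetSum_coeff, coeff_smul] at h1
    rw [sum_range_succ'] at h1
    simp only [Function.iterate_zero, id_eq, zero_add, Nat.factorial_one,
      Nat.cast_one, inv_one, one_smul] at h1
    rw [coeff_deriv] at h1
    rw [← h1, add_comm]
  have key : ∀ n, z.coeff (n + 1) ∈ K ∧ z.coeff (n + 1) - (if n = 0 then Y.coeff 0 else 0) ∈ K1 := by
    intro n
    induction n using Nat.strong_induction_on with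
    | _ n ih =>
      have hZ : ∀ b, 1 ≤ b → b ≤ n → z.coeff b ∈ K := by
        intro b hb1 hb2
        obtain ⟨b, rfl⟩ := Nat.exists_eq_add_of_le' hb1
        exact (ih b (by omega)).1
      have h1 : ∀ m ≤ n, (1 : ℚ)⁻¹ • (adr z (derivative z)).coeff m ∈ K1 := by
        intro m hm
        rw [inv_one, one_smul, Filt.coeff_adr hz0]
        refine Submodule.sum_mem _ fun q hq => ?_
        rw [mem_filter, HasAntidiagonal.mem_antidiagonal] at hq
        refine hbr _ ?_ _ (hZ _ (by omega) (by omega))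
        rw [coeff_deriv]
        exact qsmul_mem _ (hZ _ (by omega) (by omega)) _
      have h2 : ∀ k, ((adr z)^[k + 1] (derivative z)).coeff n ∈ K1 := by
        intro k
        have h3 := Filt.coeff_adr_iter (Z := z) (W := derivative z) hz0 K.toAddSubgroup K1.toAddSubgroup 1
          (fun u hu v hv => by
            rw [inv_one, one_smul]
            exact hbr u hu v (hK1 hv)) n hZ h1 k n le_rfl
        rw [one_pow, inv_one, one_smul] at h3
        exact h3
      have h3 : ∑ k ∈ range N, ((k + 2).factorial : ℚ)⁻¹ •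
          ((adr z)^[k + 1] (derivative z)).coeff n ∈ K1 :=
        Submodule.sum_mem _ fun k _ => qsmul_mem _ (h2 k) _
      have h4 := hrec n
      have h5 : ((n + 1 : ℕ) : ℚ) • z.coeff (n + 1) ∈ K := by
        have := Submodule.sub_mem _ (hYK n) (hK1 h3)
        rwa [← h4, add_sub_cancel_right] at this
      have hn : ((n + 1 : ℕ) : ℚ) ≠ 0 := by positivity
      have h6 : z.coeff (n + 1) ∈ K := by
        have := qsmul_mem K h5 ((n + 1 : ℕ) : ℚ)⁻¹
        rwa [inv_smul_smul₀ hn] at this
      refine ⟨h6, ?_⟩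
      rcases Nat.eq_zero_or_pos n with rfl | hn0
      · rw [if_pos rfl]
        have : z.coeff (0 + 1) - Y.coeff 0 =
            -(∑ k ∈ range N, ((k + 2).factorial : ℚ)⁻¹ •
              ((adr z)^[k + 1] (derivative z)).coeff 0) := by
          rw [← h4]
          simp
        rw [this]
        exact Submodule.neg_mem _ h3
      · rw [if_neg (by omega), sub_zero]
        have h7 : ((n + 1 : ℕ) : ℚ) • z.coeff (n + 1) ∈ K1 := by
          have := Submodule.sub_mem _ (hYK1 n hn0) h3
          rwa [← h4, add_sub_cancel_right] at this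
        have := qsmul_mem K1 h7 ((n + 1 : ℕ) : ℚ)⁻¹
        rwa [inv_smul_smul₀ hn] at this
  -- conclusion
  have hzK : ev A 1 z ∈ K := by
    refine ev_mem_of_coeff K z (fun n => ?_) 1
    rcases Nat.eq_zero_or_pos n with rfl | hn0
    · rw [hz0]; exact K.zero_mem
    · obtain ⟨n, rfl⟩ := Nat.exists_eq_add_of_le' hn0
      exact (key n).1
  refine ⟨ev A 1 z, hzK, ?_, ?_⟩
  · have h1 := ev_mem_of_coeff K1 (z - monomial 1 (Y.coeff 0)) (fun n => ?_) 1
    · rwa [map_sub, ev_monomial_one, one_smul, hY00] at h1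
    · rw [coeff_sub, coeff_monomial]
      rcases Nat.eq_zero_or_pos n with rfl | hn0
      · rw [hz0, if_neg (by omega), sub_zero]; exact K1.zero_mem
      · obtain ⟨n, rfl⟩ := Nat.exists_eq_add_of_le' hn0
        have h2 := (key n).2
        by_cases hn : n = 0
        · subst hn
          simpa using h2
        · rw [if_neg hn] at h2
          rw [if_neg (by omega)]
          exact h2
  · rw [← hzG, ev_exp Φ 1 hz]

end main

end Pool.Agent.Helper75x.NRD
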