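import Pool.Agent.Helper75x.NRD.Gen

/-!
# Tasks D and D1
-/

set_option autoImplicit false

namespace Pool.Agent.Helper75x.NRD

open Pool.Agent.TH91.NB Pool.Agent.TH91.RF Pool.Agent.Helper75x.NR Finset Polynomial

set_option maxHeartbeats 400000

variable {N : ℕ} {I : Type}

/-- the coefficients of the central polynomial -/
noncomputable def cf (N : ℕ) (ε : I → ℝ[X]) (q : ℕ) : I → Mt N :=
  fun t => (ε t).coeff q • (1 : Mt N)

/-- the central polynomial -/
noncomputable def emb (N : ℕ) (d : ℕ) (ε : I → ℝ[X]) : (I → Mt N)[X] :=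
  ∑ q ∈ range (d + 1), monomial q (cf N ε q)

theorem cf_zero {d : ℕ} {ε : I → ℝ[X]} (hd : ∀ t, (ε t).natDegree ≤ d) {n : ℕ} (hn : d < n) :
    cf N ε n = 0 := by
  funext t
  unfold cf
  rw [coeff_eq_zero_of_natDegree_lt (lt_of_le_of_lt (hd t) hn), zero_smul]
  rfl

theorem emb_coeff {d : ℕ} {ε : I → ℝ[X]} (hd : ∀ t, (ε t).natDegree ≤ d) (n : ℕ) :
    (emb N d ε).coeff n = cf N ε n := by
  unfold emb
  rw [finsetSum_coeff]
  simp_rw [coeff_monomial]
  rw [sum_ite_eq' (range (d + 1)) n]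
  split_ifs with h
  · rfl
  · rw [mem_range] at h
    exact (cf_zero hd (by omega)).symm

theorem cf_comm (ε : I → ℝ[X]) (n : ℕ) (a : I → Mt N) : Commute (cf N ε n) a := by
  funext t
  change (ε t).coeff n • (1 : Mt N) * a t = a t * ((ε t).coeff n • (1 : Mt N))
  rw [smul_mul_assoc, mul_smul_comm, one_mul, mul_one]

theorem cf_mem (ε : I → ℝ[X]) (n : ℕ) {w : I → Mt N} (hw : w ∈ (filtI I N).F 1) :
    cf N ε n * w ∈ (filtI I N).F 1 := by
  rw [mem_filtI]
  intro t
  change (ε t).coeff n • (1 : Mt N) * w t ∈ _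
  rw [smul_mul_assoc, one_mul]
  exact smulR_mem (mem_filtI.1 hw t) _

theorem emb_derivative {d : ℕ} {ε : I → ℝ[X]} (hd : ∀ t, (ε t).natDegree ≤ d) :
    derivative (emb N d ε) = emb N d fun t => derivative (ε t) := by
  ext1 n
  rw [coeff_deriv, emb_coeff hd,
    emb_coeff (fun t => (natDegree_derivative_le _).trans ((Nat.sub_le _ _).trans (hd t)))]
  funext t
  unfold cf
  rw [Pi.smul_apply, coeff_derivative, ← Rat.cast_smul_eq_qsmul ℝ, smul_smul, mul_comm]
  push_cast
  rfl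

theorem ev_emb (τ : ℝ) {d : ℕ} {ε : I → ℝ[X]} (hd : ∀ t, (ε t).natDegree ≤ d) :
    ev (I → Mt N) τ (emb N d ε) = fun t => (ε t).eval τ • (1 : Mt N) := by
  have h1 : (emb N d ε).natDegree < d + 1 := by
    rw [Nat.lt_succ_iff, natDegree_le_iff_coeff_eq_zero]
    intro n hn
    rw [emb_coeff hd, cf_zero hd hn]
  rw [ev_sum τ _ h1]
  funext t
  rw [Finset.sum_apply, eval_eq_sum_range' (Nat.lt_succ_of_le (hd t)), sum_smul]
  refine sum_congr rfl fun q _ => ?_
  rw [emb_coeff hd, Pi.smul_apply]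
  unfold cf
  rw [smul_smul, mul_comm]

theorem const_mem {x : Mt N} (hx : x ∈ (J887.matFiltR N).F 1) :
    (fun _ => x : I → Mt N) ∈ (filtI I N).F 1 := mem_filtI.2 fun _ => hx

theorem exp_emb {x : Mt N} (hx : x ∈ (J887.matFiltR N).F 1) (e : I → ℝ) :
    IsNilpotent.exp ((fun t => e t • (1 : Mt N)) * (fun _ => x : I → Mt N)) =
      fun t => IsNilpotent.exp (e t • x) := by
  have h1 : (fun t => e t • (1 : Mt N)) * (fun _ => x : I → Mt N) = fun t => e t • x := by
    funext t
    change e t • (1 : Mt N) * x = _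
    rw [smul_mul_assoc, one_mul]
  rw [h1]
  funext t
  exact exp_apply (mem_filtI.2 fun t => smulR_mem hx _) t

theorem exp_emb_neg {x : Mt N} (hx : x ∈ (J887.matFiltR N).F 1) (e : I → ℝ) :
    IsNilpotent.exp (-((fun t => e t • (1 : Mt N)) * (fun _ => x : I → Mt N))) =
      fun t => IsNilpotent.exp (-(e t • x)) := by
  have h1 : -((fun t => e t • (1 : Mt N)) * (fun _ => x : I → Mt N)) = fun t => -(e t • x) := by
    funext t
    change -(e t • (1 : Mt N) * x) = _
    rw [smul_mul_assoc, one_mul]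
  rw [h1]
  funext t
  exact exp_apply (mem_filtI.2 fun t => Submodule.neg_mem _ (smulR_mem hx _)) t

theorem taskD1 : TaskD1 := by
  intro N I K M v hM hv d ε hd h0 hK
  have hd' : ∀ t, (derivative (ε t)).natDegree ≤ d := fun t =>
    (natDegree_derivative_le _).trans ((Nat.sub_le _ _).trans (hd t))
  have hE : ∀ n a, Commute ((emb N d ε).coeff n) a := by
    intro n a
    rw [emb_coeff hd]
    exact cf_comm ε n a
  have hEΦ : ∀ n, ∀ w ∈ (filtI I N).F 1, (emb N d ε).coeff n * w ∈ (filtI I N).F 1 := by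
    intro n w hw
    rw [emb_coeff hd]
    exact cf_mem ε n hw
  have hE0 : (emb N d ε).coeff 0 = 0 := by
    rw [emb_coeff hd]
    funext t
    unfold cf
    have := h0 t
    rw [← coeff_zero_eq_eval_zero] at this
    rw [this, zero_smul]
    rfl
  have h := genD1 (filtI I N) hE hEΦ hE0 K (M := fun _ => M) (v := fun _ => v) (const_mem hM)
    (fun n => by
      rw [ev_emb _ hd, exp_emb hM, exp_emb_neg hM]
      exact hK n)
  rw [emb_derivative hd, ev_emb _ hd'] at h
  convert h using 1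
  funext t
  change _ = (derivative (ε t)).eval 0 • (1 : Mt N) * (M * v - v * M)
  rw [smul_mul_assoc, one_mul]
  rfl

theorem taskD : TaskD := by
  intro N I K K1 hKF hK1 hbr M β hM hβ d ε hd h0 hY hY0
  have hd' : ∀ t, (derivative (ε t)).natDegree ≤ d := fun t =>
    (natDegree_derivative_le _).trans ((Nat.sub_le _ _).trans (hd t))
  have hE : ∀ n a, Commute ((emb N d ε).coeff n) a := by
    intro n a
    rw [emb_coeff hd]
    exact cf_comm ε n a
  have hEΦ : ∀ n, ∀ w ∈ (filtI I N).F 1, (emb N d ε).coeff n * w ∈ (filtI I N).F 1 := by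
    intro n w hw
    rw [emb_coeff hd]
    exact cf_mem ε n hw
  have hE0 : (emb N d ε).coeff 0 = 0 := by
    rw [emb_coeff hd]
    funext t
    unfold cf
    have := h0 t
    rw [← coeff_zero_eq_eval_zero] at this
    rw [this, zero_smul]
    rfl
  have hcM := const_mem (I := I) hM
  have hcβ := const_mem (I := I) hβ
  have hMβ : M + β ∈ (J887.matFiltR N).F 1 := Submodule.add_mem _ hM hβ
  have hYev : ∀ τ : ℝ, ev (I → Mt N) τ (Yp (emb N d ε) (fun _ => M) (fun _ => β)) =
      YD M β ε τ := by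
    intro τ
    unfold Yp
    rw [map_mul, map_mul, map_mul, ev_C, ev_expE (filtI I N) hEΦ _ hcM,
      ev_expE_neg (filtI I N) hEΦ _ hcM, emb_derivative hd, ev_emb _ hd', ev_emb _ hd, exp_emb hM,
      exp_emb_neg hM]
    funext t
    change IsNilpotent.exp (eval τ (ε t) • M) * (eval τ (derivative (ε t)) • (1 : Mt N) * β) *
      IsNilpotent.exp (-(eval τ (ε t) • M)) = _
    unfold YD
    rw [smul_mul_assoc, one_mul, mul_smul_comm, smul_mul_assoc]
  obtain ⟨z, hz, hz1, hz2⟩ := genD (filtI I N) hE hEΦ hE0 K K1 hK1 (fun x hx y hy => hbr x hx y hy)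
    hcM hcβ (fun n => by rw [hYev]; exact hY n) (fun n => by rw [hYev, hYev]; exact hY0 n)
  rw [hYev] at hz1
  refine ⟨z, hz, hz1, fun t => ?_⟩
  rw [← exp_apply (hKF z hz), ← hz2]
  unfold Gp
  have e : ((fun _ => M : I → Mt N) + fun _ => β) = fun _ => M + β := rfl
  rw [map_mul, ev_expE (filtI I N) hEΦ _ (Submodule.add_mem _ hcM hcβ),
    ev_expE_neg (filtI I N) hEΦ _ hcM, ev_emb _ hd, exp_emb_neg hM, e, exp_emb hMβ]
  rfl

end Pool.Agent.Helper75x.NRD
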